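import Mathlib
import Pool.Agent.H542Z.PFDefs
import Pool.Agent.H542Z.PFMain

set_option autoImplicit false

/-- The restricted wreath product of `ℤ/2` with the free group of rank two is Cayley
position-faithful one-tape linear-time computable, for every set `S` of group elements
(in particular for every finite set of semigroup generators). -/
theorem Pool.Agent.Results.MP_1173fd_al.AFull.result :
    ∀ S : Set Pool.Agent.H542Z.PF.Wreath,
      Pool.Agent.H542Z.PF.CayleyLinTime Pool.Agent.H542Z.PF.Wreath S :=
  Pool.Agent.H542Z.PF.wreath_linTime
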